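import Pool.Agent.H299.RDE.Final

/-!
# MP_01c7b3_an: the value `E(3)` and bounds for `E(4)`
-/

namespace Pool.Agent.Results.MP_01c7b3_an.SmallOrders

open Pool.Agent.H299.RDE

/-- the number of special cases of order `k` of type ESB -/
noncomputable def E (k : ℕ) : ℕ := (esb k).ncard

/-- the number of special cases of order `k` of type ∃US -/
noncomputable def U (k : ℕ) : ℕ := (eus k).ncard

/-- `E(3) = 135`, `U(3) = 90`, `507 ≤ E(4) ≤ 551` and `U(4) = 961 - E(4)`. -/
theorem result : E 3 = 135 ∧ U 3 = 90 ∧ 507 ≤ E 4 ∧ E 4 ≤ 551 ∧ E 4 + U 4 = 961 := by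
  have h1 := le_ncard_eus4
  have h2 := ncard_add4
  refine ⟨ncard_esb3, ncard_eus3, le_ncard_esb4, ?_, h2⟩
  unfold E
  omega

end Pool.Agent.Results.MP_01c7b3_an.SmallOrders
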